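import Pool.Agent.P.MP_68237a_lc.Bi
import Pool.Agent.P.MP_68237a_lc.Not

/-!
There is a transitive model of ZF in which every countable product of quasi-metrizable
bitopological spaces is quasi-metrizable, while some countable product of quasi-metrizable
topological spaces is not quasi-metrizable.
-/

namespace Pool.Agent.Results.MP_68237a_lc.BiNotTop

open ZFSet Pool.Agent.Lib.Forcing Pool.Agent.P.MP_68237a_lc

theorem result : ∃ N : Set ZFSet.{0}, IsZFModel N ∧ CPQMBi N ∧ ¬ CPQM N := by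
  obtain ⟨A, ρ, enc, he, hA⟩ := exists_amalg
  let T : ℕ → ZFSet.{0} := fun i => [PwT, StT, EvT, UT A].getD i (TT ρ)
  have hT : ∀ i, T i ⊆ HF := by
    rintro (_ | _ | _ | _ | i)
    exacts [show PwT ⊆ HF by unfold PwT; exact sep_subset,
      show StT ⊆ HF by unfold StT; exact sep_subset, show EvT ⊆ HF by unfold EvT; exact sep_subset,
      show UT A ⊆ HF by unfold UT; exact sep_subset, show TT ρ ⊆ HF by unfold TT; exact sep_subset]
  obtain ⟨G⟩ := exists_GM A (Γ := HF.sep fun z => ∃ i, ∃ w ∈ T i, z = pair (nat i) w) sep_subset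
  have key : ∀ i, T i ∈ G.N := fun i => by
    convert (inferInstance : Tm G.N fun _ => (⋃₀ ⋃₀ HF.sep fun z => ∃ i, ∃ w ∈ T i,
      z = pair (nat i) w : ZFSet.{0}).sep fun w => pair (nat i) w ∈ HF.sep fun z => ∃ i,
      ∃ w ∈ T i, z = pair (nat i) w).mem' using 1
    ext w
    rw [mem_sep]
    constructor
    · intro h
      have : pair (nat i) w ∈ HF.sep fun z => ∃ i, ∃ w ∈ T i, z = pair (nat i) w :=
        mem_sep.2 ⟨HF_pair (HF_nat i) (hT i h), i, w, h, rfl⟩
      exact ⟨mem_sUnion.2 ⟨{nat i, w}, mem_sUnion.2 ⟨_, this, mem_pair.2 (Or.inr rfl)⟩,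
        mem_pair.2 (Or.inr rfl)⟩, this⟩
    · rintro ⟨-, h⟩
      obtain ⟨j, w', a, b⟩ := (mem_sep.1 h).2
      simp only [pair_inj, nat_inj] at b
      exact b.1 ▸ b.2 ▸ a
  exact ⟨G.N, G.zf, G.bi (key 0) (key 1) (key 2) (key 3), G.not_cpqm he hA (key 0) (key 1) (key 4)⟩

end Pool.Agent.Results.MP_68237a_lc.BiNotTop
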